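import Pool.Agent.H50.SM.Stm

/-!
# Project XS (helper64): trace class perturbations of SUBNORMAL operators have invariant subspaces

Theorem: `S` subnormal (`N V = V S` with an isometry `V : H → L` and `N` normal), `K` trace class on
`H`, `dim H ≥ 2`: `S + K` has a nontrivial closed invariant subspace.

Setting (structure `Dat`): `T = N + K` on `L²(μ)`, `N` the multiplication by `φ`, an isometry
`V : H → L²(μ)` whose range `M` is invariant under `T†`; `B = V† T V` is the compression, so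
`V B† = T† V` and `B V† = V† T`. `K f = ∑ ⟪v j, f⟫ u j`; for `j ∈ J` the vectors `u j`, `v j` are in
`M`, for `j ∉ J` `v j = 0` and the `u j` are total in the orthogonal complement of `M`. `F = Fm φ u v z`.

Plan. (1) If for a set of positive area `1 - F†` has a kernel vector supported in `J` then there are
chains for `B` and for `B†` at two points (`S_CHA`, `S_CHB`), hence an invariant subspace (`S_TWO`).
(2) Otherwise the rows `i ∈ J` of `1 - F` form a surjective matrix, so the solutions `c` of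
`c i = (F c) i`, `i ∈ J`, persist (`S_ALGJ`), and they are generalised eigenvectors of `T†` on `M`
(`S_EVLJ`): Thomson's scheme gives a bounded point evaluation or `∑ ct φ (V x) (u j) c j = 0` for all
`x` and all solutions (`S_THMJ`). (3) In the second case `ct φ (V x) (u j) = 0` for `j ∉ J`, so `M`
reduces `N` (`S_RD1`, `S_RD2`) and `B` is normal plus trace class (`S_NRM`).
-/

set_option autoImplicit false

namespace Pool.Agent.H64.XS

open MeasureTheory Set Metric Filter Topology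
open scoped InnerProductSpace ENNReal NNReal ComplexConjugate
open Pool.Agent.Y283.NK (ct IsMul Repr)
open Pool.Agent.Q130.TR
open Pool.Agent.H50.SM
open ContinuousLinearMap (adjoint)

/-- the setting -/
structure Dat {S : Type} [MeasurableSpace S] {μ : Measure S} (φ : S → ℂ)
    (N K : Lp ℂ 2 μ →L[ℂ] Lp ℂ 2 μ) (u v : ℕ → Lp ℂ 2 μ) (J : Set ℕ)
    {H : Type} [NormedAddCommGroup H] [InnerProductSpace ℂ H] [CompleteSpace H]
    (V : H →L[ℂ] Lp ℂ 2 μ) (B : H →L[ℂ] H) : Prop where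
  mul : IsMul φ N
  rep : Repr K u v
  iso : ∀ x, adjoint V (V x) = x
  adj : ∀ x, V (adjoint B x) = adjoint (N + K) (V x)
  uJ : ∀ i ∈ J, V (adjoint V (u i)) = u i
  vJ : ∀ i ∈ J, V (adjoint V (v i)) = v i
  v0 : ∀ i, i ∉ J → v i = 0
  u0 : ∀ i, i ∉ J → adjoint V (u i) = 0
  tot : ∀ y, (∀ i, i ∉ J → ⟪u i, y⟫_ℂ = 0) → V (adjoint V y) = y

/-- the kernel of `1 - F†` has no vector supported in `J` -/
def Ok {S : Type} [MeasurableSpace S] {μ : Measure S} (φ : S → ℂ) (u v : ℕ → Lp ℂ 2 μ)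
    (J : Set ℕ) (z : ℂ) : Prop :=
  ∀ d, Sq d → (∀ i, i ∉ J → d i = 0) →
    (∀ i, d i = act (fun i j => conj (Fm φ u v z j i)) d i) → ∀ i, d i = 0

/-- EVLJ (module EVLJ): generalised eigenvectors.

Proof. Exactly as `Pool.Agent.H50.SM.EVL.evl` (file `H50/SM/Evl.lean`): for almost all `z`
`ct φ (T† x) (u j) z = z ct φ x (u j) z - ⟪x, u j⟫ + ∑ i, ⟪x, u i⟫ F i j` (`ct_adj` there), so for
`c` in `ℓ²` `∑ j, ct φ (T† x) (u j) z c j = z ∑ j, ct φ x (u j) z c j + ∑ i, ⟪x, u i⟫ ((F c) i - c i)`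
and the last sum is zero. -/
def S_EVLJ : Prop :=
  ∀ (S : Type) [MeasurableSpace S] (μ : Measure S) [SigmaFinite μ] (φ : S → ℂ)
    (N K : Lp ℂ 2 μ →L[ℂ] Lp ℂ 2 μ), IsMul φ N → ∀ (u v : ℕ → Lp ℂ 2 μ), Repr K u v →
    ∀ x : Lp ℂ 2 μ, ∀ᵐ z : ℂ, ∀ c : ℕ → ℂ, Sq c →
      (∀ i, ⟪x, u i⟫_ℂ = 0 ∨ c i = act (Fm φ u v z) c i) →
      ∑' j, ct φ (adjoint (N + K) x) (u j) z * c j = z * ∑' j, ct φ x (u j) z * c j

/-- WGTJ (module WGTJ, uses `S_EVLJ`, `S_HSB`): the weight. Proof: as `S_WGT` (file `H50/SM/Wgt.lean`),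
with `S_EVLJ` for the vectors `(T†)^k x`. -/
def S_WGTJ : Prop :=
  ∀ (S : Type) [MeasurableSpace S] (μ : Measure S) [SigmaFinite μ] (φ : S → ℂ)
    (N K : Lp ℂ 2 μ →L[ℂ] Lp ℂ 2 μ), IsMul φ N → ∀ (u v : ℕ → Lp ℂ 2 μ), Repr K u v →
    ∀ (J : Set ℕ) (x : Lp ℂ 2 μ),
      (∀ k : ℕ, ∀ i, i ∉ J → ⟪((adjoint (N + K)) ^ k) x, u i⟫_ℂ = 0) →
      ∃ W : ℂ → ℝ, Measurable W ∧ (∀ z, 0 ≤ W z ∧ W z ≤ 1) ∧
      (∀ p : Polynomial ℂ, ∀ᵐ z : ℂ,
        ‖p.eval z‖ * W z ≤ n2 fun j => ct φ (yv (N + K) x p) (u j) z) ∧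
      ∀ᵐ z : ℂ, ∀ c : ℕ → ℂ, Sq c → n2 c ≤ 1 → (∀ i ∈ J, c i = act (Fm φ u v z) c i) →
        min 1 ‖∑' j, ct φ x (u j) z * c j‖ ≤ W z

/-- ALGJ (module ALGJ, uses `S_L2B`): the constrained solutions persist.

Proof. Operators on `ℓ²` as in `H50/SM/Alg.lean`. `E` = projection to the coordinates in `J`,
`A = E (1 - F)`. The range of `A` is the whole range of `E`: `A` has closed range up to compactness:
consider `D = (1 - E) + E (1 - F)(1 - F)† E` (or `1 - L` with `L` compact self-adjoint,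
`L = 1 - D = E F + F† E ...`): `⟪D y, y⟫ = ‖(1 - E) y‖² + ‖(1 - F)† E y‖²`, so `D y = 0` implies
`y = E y` and `y = F† y`, so `y = 0` by hypothesis; `D - 1` is compact (`D = 1 - E (F + F† - F F†) E`),
so `D` is invertible (Fredholm alternative; `S_FRD` for the Hilbert-Schmidt matrix
`E (F + F† - F F†) E`, or the operator version). `D` commutes with `E`. `R = (1 - F)† E D⁻¹`:
`A R y = E (1 - F) (1 - F)† E D⁻¹ y = D D⁻¹ y = y` for `y = E y`. So `R` is a bounded right inverse.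
Now let `F₁` be near and `A₁ = E (1 - F₁)`; `Δ = (A₁ - A) R`, `‖Δ‖ ≤ κ ‖R‖ ≤ 1 / 2`;
`y = (1 + Δ)⁻¹ (A₁ - A) c₀` (in the range of `E`), `c₁ = c₀ - R y`: `A₁ c₁ = (A₁ - A) c₀ + A c₀
- (A R + Δ) y = (A₁ - A) c₀ - (1 + Δ) y = 0`, `‖c₁ - c₀‖ ≤ 2 ‖R‖ κ ‖c₀‖`. Since `∑ b j c₀ j ≠ 0`:
`|∑ b₁ j c₁ j| ≥ |∑ b j c₀ j| / 2` for small `κ`. Divide `c₁` by `n2 c₀ + 1`. (Alternatively:
`ContinuousLinearMap` surjective onto a closed subspace and the open mapping theorem.) -/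
def S_ALGJ : Prop :=
  ∀ (F : ℕ → ℕ → ℂ) (J : Set ℕ) (b : ℕ → ℂ), HS F → Sq b →
    (∀ d, Sq d → (∀ i, i ∉ J → d i = 0) → (∀ i, d i = act (fun i j => conj (F j i)) d i) →
      ∀ i, d i = 0) →
    ∀ c₀ : ℕ → ℂ, Sq c₀ → (∀ i ∈ J, c₀ i = act F c₀ i) → ∑' j, b j * c₀ j ≠ 0 →
    ∃ κ η : ℝ, 0 < κ ∧ 0 < η ∧ ∀ (F₁ : ℕ → ℕ → ℂ) (b₁ : ℕ → ℂ), HS F₁ → Sq b₁ →
      hs (df F₁ F) ≤ κ → n2 (fun j => b₁ j - b j) ≤ κ →
      ∃ c, Sq c ∧ n2 c ≤ 1 ∧ (∀ i ∈ J, c i = act F₁ c i) ∧ η ≤ ‖∑' j, b₁ j * c j‖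

/-- THMJ (module THMJ; uses `S_L2B`, `S_HSB`, `S_ALGJ`, `S_APX`, `S_LNK2`, `S_WGTJ`, `S_HVY`, `S_EVI` and
`Pool.Agent.Q130.TR.dich3`): Thomson's scheme.

Proof. Adapt `Pool.Agent.H50.SM.THM.thm` (file `H50/SM/Thm.lean`). Suppose that the set of the `z` where
the conclusion fails is not a null set; choose `a` in it with `HS (Fm φ u v a)`,
`Sq (fun j => ct φ (V x) (u j) a)` and the property of `S_APX` for the pairs `(u, v)` and
`(u, Pi.single 0 (V x))` (`ct φ 0 f z = 0`; the matrix of the second pair has the row `0` equal to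
`b z j = ct φ (V x) (u j) z` and the other rows zero, so `hs (df ..) = n2 (b z - b a)`). `S_ALGJ` at `a`
gives `κ, η`. The vector of `S_WGTJ`, `S_HVY` is `V x`: `⟪(T†)^k V x, u i⟫ = ⟪V (B†)^k x, u i⟫ =
⟪(B†)^k x, V† u i⟫ = 0` for `i ∉ J`. In the case `Cut2`: `S_HVY` gives
`‖p.eval a‖ ≤ C ‖yv (N + K) (V x) p‖`, `yv (N + K) (V x) p = V (yv B x p)`, `‖V y‖ = ‖y‖`, so `S_EVI` for
the operator `B` on `H`, `P = 1`, gives `NI B 1`. -/
def S_THMJ : Prop :=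
  ∀ (S : Type) [MeasurableSpace S] (μ : Measure S) [SigmaFinite μ] (φ : S → ℂ)
    (N K : Lp ℂ 2 μ →L[ℂ] Lp ℂ 2 μ) (u v : ℕ → Lp ℂ 2 μ) (J : Set ℕ)
    (H : Type) [NormedAddCommGroup H] [InnerProductSpace ℂ H] [CompleteSpace H]
    (V : H →L[ℂ] Lp ℂ 2 μ) (B : H →L[ℂ] H), Dat φ N K u v J V B →
    Dim2 (1 : H →L[ℂ] H) → NI B 1 ∨ ∀ x : H, ∀ᵐ z : ℂ, Ok φ u v J z → ∀ c, Sq c →
      (∀ i ∈ J, c i = act (Fm φ u v z) c i) → ∑' j, ct φ (V x) (u j) z * c j = 0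

/-- KER (module KER, uses `S_L2B`): measurable fields of kernel vectors supported in `J`.

Proof. `Pool.Agent.Q76.TR.kfield` (file `Q76/TR/Ker.lean`) for the matrix
`F'' i j = F i j + conj (F j i) - ∑ l, conj (F l i) * F l j - (if i = j ∧ i ∉ J then 2 ^ (-i) else 0)`
(Hilbert-Schmidt, measurable: `meas_tsum` of the same file; put the sum equal to zero off `Z`):
`⟪(1 - F'') d, d⟫ = ‖(1 - F) d‖² + ∑ i ∉ J, 2 ^ (-i) |d i|²`, so `F'' d = d` iff `F d = d` and `d i = 0`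
for `i ∉ J`. The last property: `kfield` with the Hilbert-Schmidt matrices `G` = diagonal matrix with
the entries `2 ^ (-i)`. -/
def S_KER : Prop :=
  ∀ (F : ℂ → ℕ → ℕ → ℂ), (∀ i j, Measurable fun z => F z i j) → ∀ (J : Set ℕ) (Z : Set ℂ),
    MeasurableSet Z → (∀ z ∈ Z, HS (F z)) →
    ∃ e : ℕ → ℕ → ℂ → ℂ, (∀ j i, Measurable (e j i)) ∧ (∀ z j, Sq (fun i => e j i z)) ∧
      (∀ z j, n2 (fun i => e j i z) ≤ 1) ∧
      (∀ z j i, e j i z = act (F z) (fun l => e j l z) i) ∧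
      (∀ z j i, i ∉ J → e j i z = 0) ∧
      ∀ z ∈ Z, (∀ j i, e j i z = 0) →
        ∀ c, Sq c → (∀ i, i ∉ J → c i = 0) → (∀ i, c i = act (F z) c i) → ∀ i, c i = 0

/-- CHA (module CHA): a chain for `B`.

Proof. `Ok` fails on a set in `ball a r` which is not a null set: there, for almost all `z`, `1 - F†` has
a nonzero kernel vector, so `1 - F` has one (`S_FRD` applied to `F†`, contrapositive; `(F†)† = F`), so
`KerP φ u v P z` fails for `P = V V†`: `P† (v i) = v i` for all `i` (`vJ`, `v0`), so `pv P v = v`, and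
`act F c = c ≠ 0`. `Pool.Agent.Q76.TR.chainA` (it does not need that `P` commutes with `T`) gives a chain
`X` of `N + K` with `V V† X 0 ≠ 0`. `k ↦ V† (X k)` is a chain of `B`: `B V† y = V† (N + K) y` for all
`y` (adjoint of `adj`), `‖V† y‖ ≤ ‖y‖`. -/
def S_CHA : Prop :=
  ∀ (S : Type) [MeasurableSpace S] (μ : Measure S) [SigmaFinite μ] (φ : S → ℂ)
    (N K : Lp ℂ 2 μ →L[ℂ] Lp ℂ 2 μ) (u v : ℕ → Lp ℂ 2 μ) (J : Set ℕ)
    (H : Type) [NormedAddCommGroup H] [InnerProductSpace ℂ H] [CompleteSpace H]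
    (V : H →L[ℂ] Lp ℂ 2 μ) (B : H →L[ℂ] H), Dat φ N K u v J V B →
    ∀ (a : ℂ) (r : ℝ), 0 < r → (¬ ∀ᵐ z, z ∈ ball a r → Ok φ u v J z) → HasChP B 1 a r

/-- CHB (module CHB, uses `S_KER`): a chain for `B†`.

Proof. As `Pool.Agent.Q76.TR.kf` and `chainA` (file `Q76/TR/Pos.lean`), for the conjugate data
`φ' = conj φ`, `N†`, `K†` (`Repr K† v u`: `Pool.Agent.Y77.NK.main_trc`), `u' = v`, `v' = u` and the field
`e` of `S_KER` for `F' z = Fm φ' v u z`, `F' (conj z) i j = conj (Fm φ u v z j i)`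
(`Pool.Agent.Y77.NK.ct_conj`), in the disc `ball (conj a) r`. Some `γ = e j i`, `i ∈ J`, does not vanish
almost everywhere in the disc. `g = 1_disc conj γ / (1 + |γ|)`; `Pool.Agent.Q76.TR.vecs` gives a chain
`X` of `N† + K†` with `⟪x, X k⟫ = ∫ (z - conj a)^k g z (∑ l, ct φ' x (v l) z * e j l z)`. For `x = u i'`
the inner sum is `act (F' z) e i' = e j i' z`; it is `0` for `i' ∉ J`, so `X k` is in the range of `V`
(`tot`); for `x = u i`: `⟪u i, X 0⟫ = ∫ |γ|² / (1 + |γ|) ≠ 0`. `k ↦ V† (X k)` is a chain of `B†`: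
`V B† V† X k = T† V V† X k = T† X k`, and `V V† X 0 = X 0 ≠ 0`. -/
def S_CHB : Prop :=
  ∀ (S : Type) [MeasurableSpace S] (μ : Measure S) [SigmaFinite μ] (φ : S → ℂ)
    (N K : Lp ℂ 2 μ →L[ℂ] Lp ℂ 2 μ) (u v : ℕ → Lp ℂ 2 μ) (J : Set ℕ)
    (H : Type) [NormedAddCommGroup H] [InnerProductSpace ℂ H] [CompleteSpace H]
    (V : H →L[ℂ] Lp ℂ 2 μ) (B : H →L[ℂ] H), Dat φ N K u v J V B →
    ∀ (a : ℂ) (r : ℝ), 0 < r → (¬ ∀ᵐ z, z ∈ ball a r → Ok φ u v J z) →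
      HasChP (adjoint B) 1 (conj a) r

/-- TWO (module TWO, uses `S_CHA`, `S_CHB`, `S_ORT`): two points.

Proof. Let `Z = {z | ¬ Ok φ u v J z}` be not a null set. The set of the `z ∈ Z` which have a
neighbourhood whose intersection with `Z` is a null set is a null set
(`MeasureTheory.measure_null_of_locally_null`), so there are two points `a ≠ b` in `Z` (a countable
set is a null set) all of whose neighbourhoods meet `Z` in a set which is not null. `r = ‖a - b‖ / 3`: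
`S_CHA` at `(a, r)`, `S_CHB` at `(b, r)`, `S_ORT` for `B` and `P = 1`. -/
def S_TWO : Prop :=
  ∀ (S : Type) [MeasurableSpace S] (μ : Measure S) [SigmaFinite μ] (φ : S → ℂ)
    (N K : Lp ℂ 2 μ →L[ℂ] Lp ℂ 2 μ) (u v : ℕ → Lp ℂ 2 μ) (J : Set ℕ)
    (H : Type) [NormedAddCommGroup H] [InnerProductSpace ℂ H] [CompleteSpace H]
    (V : H →L[ℂ] Lp ℂ 2 μ) (B : H →L[ℂ] H), Dat φ N K u v J V B →
    NI B 1 ∨ ∀ᵐ z : ℂ, Ok φ u v J z

/-- RD1 (module RD1, uses `S_L2B`, `S_FRD`): matrices.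

Proof. Let `E` be the diagonal matrix of `J` and `F' = E F E` (`F' i j = F i j` for `i, j ∈ J`, otherwise
`0`). If `F' c = c` then `c` is supported in `J` and satisfies `c i = (F c) i` for `i ∈ J`, so `c = 0` by
hypothesis. By `S_FRD` (second part) for `i ∉ J` there is `c'` with
`c' k - (F' c') k = F k i` for `k ∈ J`, `= 0` for `k ∉ J` (so `c' k = 0` for `k ∉ J`). Put
`c = c' + Pi.single i 1`: for `k ∈ J`: `(F c) k = (F' c') k + F k i = c' k = c k`. By hypothesis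
`c k = 0` for `k ∈ J`, so `c' = 0` and `F k i = 0`. -/
def S_RD1 : Prop :=
  ∀ (F : ℕ → ℕ → ℂ) (J : Set ℕ), HS F →
    (∀ c, Sq c → (∀ i ∈ J, c i = act F c i) → ∀ i ∈ J, c i = 0) →
    ∀ k ∈ J, ∀ i, i ∉ J → F k i = 0

/-- RD2 (module RD2, uses `S_RD1`, `S_HSB`): the range of `V` reduces `N`.

Proof. Hypothesis for `x = V† (v k)`, `k ∈ J` (`V x = v k`): for almost all `z`, all solutions `c`:
`0 = ∑ j, ct φ (v k) (u j) z c j = (F c) k = c k`. So `S_RD1` gives `ct φ (v k) (u i) z = 0` for `k ∈ J`,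
`i ∉ J`, almost all `z`. Hence `c = Pi.single i 1`, `i ∉ J`, is a solution, and the hypothesis for
arbitrary `x` gives `ct φ (V x) (u i) z = 0` for almost all `z`. Let `χ` be a smooth function with
compact support, `χ w = conj w` for `w` in a disc which contains the values of `φ` (`IsMul`: `φ` is
bounded). `S_CTG` with `g = db χ` and `S_POM`: `ht (db χ) = -π χ`, so
`-π ∫ conj (V x) conj φ (u i) dμ = ∫ db χ z * ct φ (V x) (u i) z = 0`, i.e. `⟪N (V x), u i⟫ = 0` for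
`i ∉ J`, so `N (V x)` is in the range of `V` (`tot`). -/
def S_RD2 : Prop :=
  ∀ (S : Type) [MeasurableSpace S] (μ : Measure S) [SigmaFinite μ] (φ : S → ℂ)
    (N K : Lp ℂ 2 μ →L[ℂ] Lp ℂ 2 μ) (u v : ℕ → Lp ℂ 2 μ) (J : Set ℕ)
    (H : Type) [NormedAddCommGroup H] [InnerProductSpace ℂ H] [CompleteSpace H]
    (V : H →L[ℂ] Lp ℂ 2 μ) (B : H →L[ℂ] H), Dat φ N K u v J V B →
    (∀ x : H, ∀ᵐ z : ℂ, ∀ c, Sq c → (∀ i ∈ J, c i = act (Fm φ u v z) c i) →
      ∑' j, ct φ (V x) (u j) z * c j = 0) →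
    ∀ x, V (adjoint V (N (V x))) = N (V x)

/-- NRM (module NRM, uses `S_FIN`): the case of a reducing subspace.

Proof. `N' = V† N V`. `N† V H ⊆ V H`: `N† V x = V B† x - K† V x` and `K† V x = ∑ ⟪u j, V x⟫ v j` is in
the range of `V` (closed; `v j` in it). With `V V† N V = N V` and `V V† N† V = N† V`:
`N' N'† = V† N V V† N† V = V† N N† V` and `N'† N' = V† N† N V`, equal as `N` is normal (`IsMul`).
`K' = V† K V`: `Repr K' (V† u) (V† v)`. `B = V† (N + K) V = N' + K'` (from `adj`). `S_FIN` with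
`P = 1`. -/
def S_NRM : Prop :=
  ∀ (S : Type) [MeasurableSpace S] (μ : Measure S) [SigmaFinite μ] (φ : S → ℂ)
    (N K : Lp ℂ 2 μ →L[ℂ] Lp ℂ 2 μ) (u v : ℕ → Lp ℂ 2 μ) (J : Set ℕ)
    (H : Type) [NormedAddCommGroup H] [InnerProductSpace ℂ H] [CompleteSpace H]
    [TopologicalSpace.SeparableSpace H]
    (V : H →L[ℂ] Lp ℂ 2 μ) (B : H →L[ℂ] H), Dat φ N K u v J V B → Dim2 (1 : H →L[ℂ] H) →
    (∀ x, V (adjoint V (N (V x))) = N (V x)) → NI B 1

/-- MDX (module MDX): the theorem for multiplication operators, from `S_THMJ`, `S_TWO`, `S_RD2`,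
`S_NRM`. -/
def S_MDX : Prop :=
  ∀ (S : Type) [MeasurableSpace S] (μ : Measure S) [SigmaFinite μ] (φ : S → ℂ)
    (N K : Lp ℂ 2 μ →L[ℂ] Lp ℂ 2 μ) (u v : ℕ → Lp ℂ 2 μ) (J : Set ℕ)
    (H : Type) [NormedAddCommGroup H] [InnerProductSpace ℂ H] [CompleteSpace H]
    [TopologicalSpace.SeparableSpace H]
    (V : H →L[ℂ] Lp ℂ 2 μ) (B : H →L[ℂ] H), Dat φ N K u v J V B → Dim2 (1 : H →L[ℂ] H) →
    NI B 1

/-- MDL (module MDL): a model of a subnormal operator plus a trace class operator.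

Proof. `Pool.Agent.Y271.RO.exists_model L N` gives `W : L²(μ) ≃ₗᵢ L` with `IsMul ψ (cj W N)`. `φ = conj ψ`,
`N₁ = (cj W N)†` (`Pool.Agent.Y77.NK.isMul_adj`), `V₁ = W⁻¹ V`, `K₁ = V₁ K† V₁†`, `B = (A + K)†`.
`u (2 j + 1) = V₁ (q j)`, `v (2 j + 1) = V₁ (p j)`, `v (2 j) = 0`, `u (2 j) = t j • (1 - V₁ V₁†) (d j)`
with a dense sequence `d` of `L²(μ)` and `t j = 2 ^ (-j) / (1 + ‖d j‖)`; `J` = the odd numbers.
`Repr K† q p` (`Pool.Agent.Y77.NK.main_trc`), so `K₁ f = ∑ ⟪V₁ p j, f⟫ V₁ q j`. `adj`: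
`V₁ (A + K) = N₁† V₁ + K₁† V₁` as `cj W N V₁ = V₁ A`, `K₁† V₁ = V₁ K V₁† V₁ = V₁ K`. -/
def S_MDL : Prop :=
  ∀ (H L : Type) [NormedAddCommGroup H] [InnerProductSpace ℂ H] [CompleteSpace H]
    [TopologicalSpace.SeparableSpace H] [NormedAddCommGroup L] [InnerProductSpace ℂ L]
    [CompleteSpace L] [TopologicalSpace.SeparableSpace L] (A K : H →L[ℂ] H) (N : L →L[ℂ] L)
    (V : H →L[ℂ] L), IsStarNormal N → (∀ x, ‖V x‖ = ‖x‖) → (∀ x, N (V x) = V (A x)) →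
    ∀ p q : ℕ → H, Repr K p q →
    ∃ (S : Type) (_ : MeasurableSpace S) (μ : Measure S) (_ : SigmaFinite μ) (φ : S → ℂ)
      (N₁ K₁ : Lp ℂ 2 μ →L[ℂ] Lp ℂ 2 μ) (u v : ℕ → Lp ℂ 2 μ) (J : Set ℕ)
      (V₁ : H →L[ℂ] Lp ℂ 2 μ), Dat φ N₁ K₁ u v J V₁ (adjoint (A + K))

/-- SEPN (module SEPN): an operator on a Hilbert space which is not separable has invariant subspaces.

Proof. `x ≠ 0`, `V` = closure of the span of the vectors `T^k x`: invariant, not `⊥`, separable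
(`TopologicalSpace.IsSeparable`: span of a countable set, closure), so not everything. -/
def S_SEPN : Prop :=
  ∀ (H : Type) [NormedAddCommGroup H] [InnerProductSpace ℂ H] [CompleteSpace H],
    ¬ TopologicalSpace.SeparableSpace H → ∀ T : H →L[ℂ] H, NI T 1

/-- MIN (module MIN): the space of a normal extension can be taken separable.

Proof. `M` = topological closure of the span of the vectors `(N†)^k (V (d j))`, `d` a dense sequence of
`H`: closed, separable, contains the range of `V`, invariant under `N†` and under `N`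
(`N (N†)^k V h = (N†)^k N V h = (N†)^k V A h`, and `V A h` is a limit of the `V (d j)`). The restriction
of `N` to `M` is normal. (See `exists_sep` in `Q130/TR/Sep.lean` and `H50/SM/Sepx.lean`: `exists_sep N u v`
gives a closed separable subspace which reduces `N` and contains the sequences `u`, `v`: take
`u j = V (d j)`.) -/
def S_MIN : Prop :=
  ∀ (H L : Type) [NormedAddCommGroup H] [InnerProductSpace ℂ H] [CompleteSpace H]
    [TopologicalSpace.SeparableSpace H] [NormedAddCommGroup L] [InnerProductSpace ℂ L]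
    [CompleteSpace L] (A : H →L[ℂ] H) (N : L →L[ℂ] L) (V : H →L[ℂ] L), IsStarNormal N →
    (∀ x, ‖V x‖ = ‖x‖) → (∀ x, N (V x) = V (A x)) →
    ∃ (M : Submodule ℂ L) (_ : CompleteSpace M) (_ : TopologicalSpace.SeparableSpace M)
      (N' : M →L[ℂ] M) (V' : H →L[ℂ] M), IsStarNormal N' ∧ (∀ x, ‖V' x‖ = ‖x‖) ∧
      ∀ x, N' (V' x) = V' (A x)

/-- XSUB (module XSUB): the theorem, from `S_MDX`, `S_MDL`, `S_SEPN`, `S_MIN`, `S_ADJ`. -/
def S_XSUB : Prop :=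
  ∀ (H L : Type) [NormedAddCommGroup H] [InnerProductSpace ℂ H] [CompleteSpace H]
    [NormedAddCommGroup L] [InnerProductSpace ℂ L] [CompleteSpace L] (A K : H →L[ℂ] H)
    (N : L →L[ℂ] L) (V : H →L[ℂ] L), IsStarNormal N → (∀ x, ‖V x‖ = ‖x‖) →
    (∀ x, N (V x) = V (A x)) → ∀ p q : ℕ → H, Repr K p q → Dim2 (1 : H →L[ℂ] H) →
    NI (A + K) 1

end Pool.Agent.H64.XS
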