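import Pool.Agent.H64.XS.Stm
import Pool.Graph.R_pool_sql_team_seeded_3997aac3.Q76.TR.Pos

/-!
# Project XS (helper64), module CHA: a chain for `B`
-/

set_option autoImplicit false

namespace Pool.Agent.H64.XS

open MeasureTheory Set Metric Filter Topology
open scoped InnerProductSpace ENNReal NNReal ComplexConjugate
open Pool.Agent.Y283.NK (ct IsMul Repr)
open Pool.Agent.Y271.RO (IsChain)
open Pool.Agent.Q130.TR Pool.Agent.Q135.TR
open Pool.Agent.Q76.TR
open Pool.Agent.H50.SM (df NI Dim2)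
open ContinuousLinearMap (adjoint)

section

variable {S : Type} [MeasurableSpace S] {μ : Measure S} {φ : S → ℂ}
  {N K : Lp ℂ 2 μ →L[ℂ] Lp ℂ 2 μ} {u v : ℕ → Lp ℂ 2 μ} {J : Set ℕ}
  {H : Type} [NormedAddCommGroup H] [InnerProductSpace ℂ H] [CompleteSpace H]
  {V : H →L[ℂ] Lp ℂ 2 μ} {B : H →L[ℂ] H}

/-- the norm of `V x` -/
theorem Dat.norm (d : Dat φ N K u v J V B) (x : H) : ‖V x‖ = ‖x‖ := by
  have h : ‖V x‖ ^ 2 = ‖x‖ ^ 2 := by
    have h1 : ⟪V x, V x⟫_ℂ = ⟪x, x⟫_ℂ := by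
      rw [← ContinuousLinearMap.adjoint_inner_left, d.iso]
    rw [inner_self_eq_norm_sq_to_K, inner_self_eq_norm_sq_to_K] at h1
    exact_mod_cast h1
  exact (pow_left_inj₀ (norm_nonneg _) (norm_nonneg _) two_ne_zero).1 h

/-- `B V† = V† T` -/
theorem Dat.comm (d : Dat φ N K u v J V B) (y : Lp ℂ 2 μ) :
    B (adjoint V y) = adjoint V ((N + K) y) := by
  refine ext_inner_left ℂ fun x => ?_
  rw [← ContinuousLinearMap.adjoint_inner_left, ContinuousLinearMap.adjoint_inner_right,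
    ContinuousLinearMap.adjoint_inner_right, d.adj, ContinuousLinearMap.adjoint_inner_left]

/-- the norm of `V† y` -/
theorem Dat.adj_le (d : Dat φ N K u v J V B) (y : Lp ℂ 2 μ) : ‖adjoint V y‖ ≤ ‖y‖ := by
  have h1 : ‖V‖ ≤ 1 := V.opNorm_le_bound zero_le_one fun x => by rw [d.norm, one_mul]
  have h2 : ‖adjoint V‖ ≤ 1 := by
    rw [LinearIsometryEquiv.norm_map]
    exact h1
  exact ((adjoint V).le_opNorm y).trans (mul_le_of_le_one_left (norm_nonneg _) h2)

/-- all the `v i` are in the range of `V` -/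
theorem Dat.v_mem (d : Dat φ N K u v J V B) (i : ℕ) : V (adjoint V (v i)) = v i := by
  by_cases hi : i ∈ J
  · exact d.vJ i hi
  · rw [d.v0 i hi, map_zero, map_zero]

end

/-- CHA -/
theorem cha (hL : S_L2B) (hHSB : S_HSB) (hFRD : S_FRD) : S_CHA := by
  intro S _ μ _ φ N K u v J H _ _ _ V B d a r hr hnot
  obtain ⟨P, hP⟩ : ∃ P : Lp ℂ 2 μ →L[ℂ] Lp ℂ 2 μ, P = V ∘L adjoint V := ⟨_, rfl⟩
  have hPa : adjoint P = P := by
    rw [hP, ContinuousLinearMap.adjoint_comp, ContinuousLinearMap.adjoint_adjoint]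
  have hpv : pv P v = v := by
    funext i
    rw [pv, hPa, hP]
    exact d.v_mem i
  have hK := d.rep
  have hch : HasChP (N + K) P a r := by
    refine chainA hL hHSB d.mul hK P a r hr fun hcon => hnot ?_
    filter_upwards [hcon, (hHSB.1 S μ φ d.mul.meas u v hK.1 hK.2.1).2.1] with z hz hHS hzb
    have hker := hz hzb
    unfold KerP at hker
    rw [hpv] at hker
    have h1 : ∀ c, Sq c → (∀ i, c i = act (Fm φ u v z) c i) → ∀ j, c j = 0 := by
      intro c hc hcF j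
      rw [hcF j]
      exact hker c hc hcF j
    intro e he _ heF
    exact (hFRD _ hHS h1).2.2 e he heF
  obtain ⟨X, ⟨hX1, C, hX2⟩, hX0⟩ := hch
  refine ⟨fun k => adjoint V (X k), ⟨fun k => ?_, C, fun k => (d.adj_le _).trans (hX2 k)⟩, ?_⟩
  · rw [d.comm, ← map_smul, ← map_sub, hX1 k]
  · intro h0
    apply hX0
    rw [hP]
    show V (adjoint V (X 0)) = 0
    have h2 : adjoint V (X 0) = 0 := h0
    rw [h2, map_zero]

end Pool.Agent.H64.XS
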