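import Pool.Agent.H64.XS.Stm
import Pool.Agent.H50.SM.Alg

/-!
# Project XS (helper64), module KER: measurable fields of kernel vectors supported in `J`
-/

set_option autoImplicit false

namespace Pool.Agent.H64.XS

open MeasureTheory Set Metric Filter Topology
open scoped InnerProductSpace ENNReal NNReal ComplexConjugate
open Pool.Agent.Q130.TR Pool.Agent.Q135.TR
open Pool.Agent.Q76.TR
open Pool.Agent.H50.SM (df)
open ContinuousLinearMap (adjoint)

namespace KER

/-- the weights -/
noncomputable def wt (J : Set ℕ) (i : ℕ) : ℝ := by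
  classical
  exact if i ∈ J then 0 else (1 / 2) ^ i

theorem wt_nonneg (J : Set ℕ) (i : ℕ) : 0 ≤ wt J i := by
  unfold wt
  split_ifs <;> positivity

theorem wt_pos (J : Set ℕ) {i : ℕ} (h : i ∉ J) : 0 < wt J i := by
  unfold wt
  rw [if_neg h]
  positivity

theorem wt_mem (J : Set ℕ) {i : ℕ} (h : i ∈ J) : wt J i = 0 := by
  unfold wt
  rw [if_pos h]

theorem wt_le (J : Set ℕ) (i : ℕ) : wt J i ≤ (1 / 2) ^ i := by
  unfold wt
  split_ifs
  · positivity
  · exact le_rfl

/-- diagonal matrix -/
noncomputable def dg (w : ℕ → ℝ) (i j : ℕ) : ℂ := if i = j then (w i : ℂ) else 0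

theorem act_dg (w : ℕ → ℝ) (c : ℕ → ℂ) (i : ℕ) : act (dg w) c i = (w i : ℂ) * c i := by
  unfold act dg
  rw [tsum_eq_single i]
  · simp
  · intro j hj
    rw [if_neg (Ne.symm hj), zero_mul]

theorem HS_dg {w : ℕ → ℝ} (h0 : ∀ i, 0 ≤ w i) (hw : ∀ i, w i ≤ (1 / 2) ^ i) : HS (dg w) := by
  unfold HS
  have h1 : Summable fun i : ℕ => (((1 : ℝ) / 2) ^ i) ^ 2 := by
    have : (fun i : ℕ => (((1 : ℝ) / 2) ^ i) ^ 2) = fun i : ℕ => ((1 : ℝ) / 4) ^ i := by
      funext i
      rw [← pow_mul, mul_comm, pow_mul]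
      norm_num
    rw [this]
    exact summable_geometric_of_lt_one (by norm_num) (by norm_num)
  have h2 : Function.Injective fun i : ℕ => (i, i) := fun a b h => (Prod.mk.inj h).1
  refine (Function.Injective.summable_iff h2 ?_).1 ?_
  · rintro ⟨i, j⟩ hij
    have hne : ¬ i = j := fun h => hij ⟨i, by simp [h]⟩
    simp [dg, hne]
  · refine Summable.of_nonneg_of_le (fun _ => sq_nonneg _) (fun i => ?_) h1
    simp only [Function.comp, dg, if_true, Complex.norm_real]
    rw [Real.norm_of_nonneg (h0 i)]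
    exact pow_le_pow_left₀ (h0 i) (hw i) 2

theorem HS_add {A B : ℕ → ℕ → ℂ} (hA : HS A) (hB : HS B) : HS fun i j => A i j + B i j := by
  unfold HS
  refine Summable.of_nonneg_of_le (fun _ => by positivity) (fun p => ?_)
    ((hA.add hB).mul_left 2)
  have h1 := norm_add_le (A p.1 p.2) (B p.1 p.2)
  have h2 := norm_nonneg (A p.1 p.2 + B p.1 p.2)
  nlinarith [sq_nonneg (‖A p.1 p.2‖ - ‖B p.1 p.2‖)]

theorem HS_sub {A B : ℕ → ℕ → ℂ} (hA : HS A) (hB : HS B) : HS fun i j => A i j - B i j := by
  have hB' : HS fun i j => -B i j := by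
    unfold HS at hB ⊢
    simpa using hB
  simpa [sub_eq_add_neg] using HS_add hA hB'

/-- the modified matrix -/
noncomputable def mo (F : ℕ → ℕ → ℂ) (J : Set ℕ) (i j : ℕ) : ℂ :=
  F i j + conj (F j i) - pm (fun i j => conj (F j i)) F i j - dg (wt J) i j

theorem HS_mo (h : S_L2B) {F : ℕ → ℕ → ℂ} (hF : HS F) (J : Set ℕ) : HS (mo F J) :=
  HS_sub (HS_sub (HS_add hF (HS_adj hF)) (h.2.2.2.1 _ _ (HS_adj hF) hF).1)
    (HS_dg (wt_nonneg J) (wt_le J))

theorem act_mo (h : S_L2B) {F : ℕ → ℕ → ℂ} (hF : HS F) (J : Set ℕ) {c : ℕ → ℂ} (hc : Sq c)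
    (i : ℕ) : act (mo F J) c i = act F c i + act (fun i j => conj (F j i)) c i -
      act (fun i j => conj (F j i)) (act F c) i - (wt J i : ℂ) * c i := by
  have hp := h.2.2.2.1 _ _ (HS_adj hF) hF
  rw [← hp.2 c hc, ← act_dg]
  have s1 := (h.2.2.1 _ c hF hc).1 i
  have s2 := (h.2.2.1 _ c (HS_adj hF) hc).1 i
  have s3 := (h.2.2.1 _ c hp.1 hc).1 i
  have s4 := (h.2.2.1 _ c (HS_dg (wt_nonneg J) (wt_le J)) hc).1 i
  unfold act at *
  rw [← s1.tsum_add s2, ← (s1.add s2).tsum_sub s3, ← ((s1.add s2).sub s3).tsum_sub s4]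
  refine tsum_congr fun j => ?_
  unfold mo
  ring

/-- the kernel of the modified matrix -/
theorem ker_mo (h : S_L2B) {F : ℕ → ℕ → ℂ} (hF : HS F) (J : Set ℕ) {c : ℕ → ℂ} (hc : Sq c) :
    (∀ i, c i = act (mo F J) c i) ↔ (∀ i, i ∉ J → c i = 0) ∧ ∀ i, c i = act F c i := by
  constructor
  · intro hk
    obtain ⟨x, hx⟩ : ∃ x : EE, x = vec c hc := ⟨_, rfl⟩
    have hxi : ∀ i, x i = c i := fun i => by rw [hx]; rfl
    obtain ⟨y, hy⟩ : ∃ y : EE, y = adjoint (opA h F hF) (opA h F hF x) := ⟨_, rfl⟩
    have hyi : ∀ i, y i = -((wt J i : ℂ) * c i) := by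
      intro i
      have h1 := hk i
      rw [act_mo h hF J hc] at h1
      rw [hy, opA_adj, opA_apply]
      have h2 : (fun j => (opA h F hF x : EE) j) = fun j => c j - act F c j := by
        funext j
        rw [opA_apply, hxi]
        congr 2
        funext l
        exact hxi l
      rw [h2, act_sub h (HS_adj hF) hc (h.2.2.1 _ c hF hc).2.1, hxi]
      have h3 : (fun j => x j) = c := by funext j; exact hxi j
      rw [h3]
      linear_combination h1
    have h4 : ⟪x, y⟫_ℂ = ((‖opA h F hF x‖ ^ 2 : ℝ) : ℂ) := by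
      rw [hy, ContinuousLinearMap.adjoint_inner_right, inner_self_eq_norm_sq_to_K]
      push_cast
      rfl
    have h5 : ⟪x, y⟫_ℂ = -((∑' i, wt J i * ‖c i‖ ^ 2 : ℝ) : ℂ) := by
      rw [lp.inner_eq_tsum, Complex.ofReal_tsum, ← tsum_neg]
      refine tsum_congr fun i => ?_
      rw [hyi, hxi]
      simp only [RCLike.inner_apply]
      have := Complex.normSq_eq_conj_mul_self (z := c i)
      rw [Complex.normSq_eq_norm_sq] at this
      push_cast at this ⊢
      linear_combination (wt J i : ℂ) * this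
    have h6 : ‖opA h F hF x‖ ^ 2 + ∑' i, wt J i * ‖c i‖ ^ 2 = 0 := by
      have h7 := h4.symm.trans h5
      have h8 : ((‖opA h F hF x‖ ^ 2 + ∑' i, wt J i * ‖c i‖ ^ 2 : ℝ) : ℂ) = 0 := by
        rw [Complex.ofReal_add, h7]
        ring
      exact_mod_cast h8
    have hs : Summable fun i => wt J i * ‖c i‖ ^ 2 := by
      refine Summable.of_nonneg_of_le (fun i => mul_nonneg (wt_nonneg J i) (by positivity))
        (fun i => ?_) hc
      have h9 : wt J i ≤ 1 := (wt_le J i).trans (pow_le_one₀ (by norm_num) (by norm_num))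
      exact mul_le_of_le_one_left (by positivity) h9
    have h10 : 0 ≤ ∑' i, wt J i * ‖c i‖ ^ 2 :=
      tsum_nonneg fun i => mul_nonneg (wt_nonneg J i) (by positivity)
    have h11 : ‖opA h F hF x‖ ^ 2 = 0 := by nlinarith [sq_nonneg ‖opA h F hF x‖]
    have h12 : ∑' i, wt J i * ‖c i‖ ^ 2 = 0 := by nlinarith [sq_nonneg ‖opA h F hF x‖]
    have h13 : opA h F hF x = 0 := norm_eq_zero.1 (pow_eq_zero_iff two_ne_zero |>.1 h11)
    have h14 : ∀ i, wt J i * ‖c i‖ ^ 2 = 0 := by
      have h17 := hs.hasSum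
      rw [h12] at h17
      exact fun i => congrFun ((hasSum_zero_iff_of_nonneg fun i =>
        mul_nonneg (wt_nonneg J i) (by positivity)).1 h17) i
    refine ⟨fun i hi => ?_, fun i => ?_⟩
    · have h15 := (mul_eq_zero.1 (h14 i)).resolve_left (wt_pos J hi).ne'
      exact norm_eq_zero.1 (pow_eq_zero_iff two_ne_zero |>.1 h15)
    · have h16 := congrArg (fun y : EE => y i) h13
      simp only at h16
      rw [opA_apply, hxi] at h16
      have h3 : (fun j => x j) = c := by funext j; exact hxi j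
      rw [h3] at h16
      exact sub_eq_zero.1 h16
  · rintro ⟨h1, h2⟩ i
    rw [act_mo h hF J hc]
    have h3 : act F c = c := by funext i; exact (h2 i).symm
    rw [h3]
    by_cases hi : i ∈ J
    · rw [wt_mem J hi]
      push_cast
      ring
    · rw [h1 i hi]
      ring

end KER

open KER

/-- KER -/
theorem ker (h : S_L2B) : S_KER := by
  classical
  intro F hFm J Z hZ hHS
  have hsum : ∀ z ∈ Z, ∀ i j, Summable fun l => conj (F z l i) * F z l j := by
    intro z hz i j
    have h1 : Sq fun l => F z l j := (hHS z hz).comp_injective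
      (i := fun l : ℕ => (l, j)) fun a b h => (Prod.mk.inj h).1
    have h2 : Sq fun l => conj (F z l i) := by
      have := (hHS z hz).comp_injective (i := fun l : ℕ => (l, i)) fun a b h => (Prod.mk.inj h).1
      unfold Sq
      simpa [Function.comp_def] using this
    exact (h.1 _ _ h2 h1).2.2.2.2.1
  obtain ⟨e, he1, he2, he3, he4⟩ := kfield h
    (fun z i j => Z.indicator (fun z => mo (F z) J i j) z) (fun i j => by
      have e1 : (fun z => Z.indicator (fun z => mo (F z) J i j) z) =
          Z.indicator fun z => F z i j + conj (F z j i) -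
            (∑' l, Z.indicator (fun z => conj (F z l i) * F z l j) z) - dg (wt J) i j := by
        funext z
        by_cases hz : z ∈ Z
        · simp only [indicator_of_mem hz]
          rfl
        · simp only [indicator_of_notMem hz]
      rw [e1]
      refine Measurable.indicator ?_ hZ
      refine (((hFm i j).add (Complex.continuous_conj.measurable.comp (hFm j i))).sub ?_).sub
        measurable_const
      refine meas_tsum _ (fun l => ((Complex.continuous_conj.measurable.comp (hFm l i)).mul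
        (hFm l j)).indicator hZ) fun z => ?_
      by_cases hz : z ∈ Z
      · simpa only [indicator_of_mem hz] using hsum z hz i j
      · simp only [indicator_of_notMem hz]
        exact summable_zero) Z hZ (fun z hz => by
      simp only [indicator_of_mem hz]
      exact HS_mo h (hHS z hz) J)
  have hk : ∀ z ∈ Z, ∀ j, (∀ i, i ∉ J → e j i z = 0) ∧
      ∀ i, e j i z = act (F z) (fun l => e j l z) i := by
    intro z hz j
    obtain ⟨h1, -, h3⟩ := he2 z hz j
    simp only [indicator_of_mem hz] at h3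
    exact (ker_mo h (hHS z hz) J h1).1 h3
  refine ⟨e, he1, fun z j => ?_, fun z j => ?_, fun z j i => ?_, fun z j i hi => ?_,
    fun z hz h0 c hc hcJ hcF i => ?_⟩
  · by_cases hz : z ∈ Z
    · exact (he2 z hz j).1
    · simp only [he3 z hz]
      unfold Sq
      simp
  · by_cases hz : z ∈ Z
    · exact (he2 z hz j).2.1
    · simp only [he3 z hz]
      simp [n2]
  · by_cases hz : z ∈ Z
    · exact (hk z hz j).2 i
    · simp only [he3 z hz, act, mul_zero, tsum_zero]
  · by_cases hz : z ∈ Z
    · exact (hk z hz j).1 i hi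
    · exact he3 z hz j i
  · have h1 := he4 z hz (dg fun i => (1 / 2) ^ i) (HS_dg (fun i => by positivity) fun i => le_rfl)
      (fun j i => by rw [act_dg, h0 j i, mul_zero]) c hc (by
        simp only [indicator_of_mem hz]
        exact (ker_mo h (hHS z hz) J hc).2 ⟨hcJ, hcF⟩) i
    rw [act_dg] at h1
    exact (mul_eq_zero.1 h1).resolve_left (by
      norm_cast
      positivity)

end Pool.Agent.H64.XS
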