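import Pool.Agent.H64.XS.Stm
import Pool.Graph.R_seed8.Y77.NK.ADJ
import Pool.Graph.R_pool_sql_team_seeded_3997aac3.Q130.TC.Ops

/-!
# Project XS (helper64), module MDL: a model of a subnormal operator plus a trace class operator
-/

set_option autoImplicit false

namespace Pool.Agent.H64.XS

open MeasureTheory Set Metric Filter Topology
open scoped InnerProductSpace ENNReal NNReal ComplexConjugate
open Pool.Agent.Y283.NK (ct IsMul Repr cj)
open Pool.Agent.Q130.TR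
open Pool.Agent.H50.SM
open ContinuousLinearMap (adjoint)

/-- MDL -/
theorem mdl : S_MDL := by
  intro H L _ _ _ _ _ _ _ _ A K N V hN hV hNV p q hK
  obtain ⟨S, mS, μ, sμ, ψ, W, hMul, -⟩ := Pool.Agent.Y271.RO.exists_model L N hN
  have hKa : Repr (adjoint K) q p := (Pool.Agent.Y77.NK.main_trc _ K p q hK).1
  obtain ⟨V₁, hV₁⟩ : ∃ V₁ : H →L[ℂ] Lp ℂ 2 μ, ∀ x, V₁ x = W.symm (V x) :=
    ⟨(W.symm : L →L[ℂ] Lp ℂ 2 μ) ∘L V, fun x => rfl⟩
  have hn : ∀ x, ‖V₁ x‖ = ‖x‖ := fun x => by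
    rw [hV₁, LinearIsometryEquiv.norm_map, hV]
  have hiso : ∀ x, adjoint V₁ (V₁ x) = x := fun x => by
    have h := (ContinuousLinearMap.norm_map_iff_adjoint_comp_self V₁).1 hn
    exact congrArg (fun B : H →L[ℂ] H => B x) h
  -- the sequences
  obtain ⟨d, hd⟩ : ∃ d : ℕ → Lp ℂ 2 μ, Dense (range d) := by
    obtain ⟨e, he⟩ := TopologicalSpace.exists_dense_seq L
    refine ⟨fun j => W.symm (e j), ?_⟩
    have h1 : (range fun j => W.symm (e j)) = W.symm '' (range e) := by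
      rw [← range_comp]
      rfl
    rw [h1]
    exact (W.symm.surjective.denseRange).dense_image W.symm.continuous he
  obtain ⟨t, ht⟩ : ∃ t : ℕ → ℝ, ∀ j, t j = (1 / 2) ^ j / (1 + ‖d j‖) := ⟨_, fun j => rfl⟩
  have ht0 : ∀ j, 0 < t j := fun j => by rw [ht]; positivity
  obtain ⟨g, hg⟩ : ∃ g : ℕ → Lp ℂ 2 μ, ∀ j, g j = (t j : ℂ) • (d j - V₁ (adjoint V₁ (d j))) :=
    ⟨_, fun j => rfl⟩
  have hgV : ∀ j, adjoint V₁ (g j) = 0 := fun j => by
    rw [hg, map_smul, map_sub, hiso, sub_self, smul_zero]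
  have hQ : ∀ y : Lp ℂ 2 μ, ‖y - V₁ (adjoint V₁ y)‖ ≤ ‖y‖ := by
    intro y
    have h1 : ⟪V₁ (adjoint V₁ y), y - V₁ (adjoint V₁ y)⟫_ℂ = 0 := by
      rw [← ContinuousLinearMap.adjoint_inner_right, map_sub, hiso, sub_self, inner_zero_right]
    have h2 := norm_add_sq_eq_norm_sq_add_norm_sq_of_inner_eq_zero _ _ h1
    rw [add_sub_cancel] at h2
    nlinarith [norm_nonneg y, norm_nonneg (y - V₁ (adjoint V₁ y)),
      norm_nonneg (V₁ (adjoint V₁ y)), mul_self_nonneg ‖V₁ (adjoint V₁ y)‖]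
  have hgn : ∀ j, ‖g j‖ ≤ (1 / 2) ^ j := by
    intro j
    rw [hg, norm_smul, Complex.norm_real, Real.norm_of_nonneg (ht0 j).le, ht,
      div_mul_eq_mul_div, div_le_iff₀ (by positivity)]
    have h1 := hQ (d j)
    have h2 : (0:ℝ) ≤ (1 / 2) ^ j := by positivity
    nlinarith
  have hgs : Summable fun j => ‖g j‖ ^ 2 := by
    refine Summable.of_nonneg_of_le (fun _ => by positivity) (fun j => ?_)
      (summable_geometric_of_lt_one (r := (1/4 : ℝ)) (by norm_num) (by norm_num))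
    calc ‖g j‖ ^ 2 ≤ ((1 / 2) ^ j) ^ 2 := pow_le_pow_left₀ (norm_nonneg _) (hgn j) 2
      _ = (1 / 4) ^ j := by rw [← pow_mul, mul_comm, pow_mul]; norm_num
  obtain ⟨u, hu⟩ : ∃ u : ℕ → Lp ℂ 2 μ, ∀ n, u n = if n % 2 = 1 then V₁ (q (n / 2))
      else g (n / 2) := ⟨_, fun n => rfl⟩
  obtain ⟨v, hv⟩ : ∃ v : ℕ → Lp ℂ 2 μ, ∀ n, v n = if n % 2 = 1 then V₁ (p (n / 2))
      else 0 := ⟨_, fun n => rfl⟩
  have hu0 : ∀ k, u (2 * k) = g k := fun k => by
    rw [hu, if_neg (by omega), show 2 * k / 2 = k by omega]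
  have hu1 : ∀ k, u (2 * k + 1) = V₁ (q k) := fun k => by
    rw [hu, if_pos (by omega), show (2 * k + 1) / 2 = k by omega]
  have hv0 : ∀ k, v (2 * k) = 0 := fun k => by
    rw [hv, if_neg (by omega)]
  have hv1 : ∀ k, v (2 * k + 1) = V₁ (p k) := fun k => by
    rw [hv, if_pos (by omega), show (2 * k + 1) / 2 = k by omega]
  have hrep : Repr (V₁ ∘L adjoint K ∘L adjoint V₁) u v := by
    refine ⟨?_, ?_, fun f => ?_⟩
    · refine (HasSum.even_add_odd (f := fun n => ‖u n‖ ^ 2) (m := ∑' k, ‖g k‖ ^ 2)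
        (m' := ∑' k, ‖q k‖ ^ 2) ?_ ?_).summable
      · simp only [hu0]
        exact hgs.hasSum
      · simp only [hu1, hn]
        exact hKa.1.hasSum
    · refine (HasSum.even_add_odd (f := fun n => ‖v n‖ ^ 2) (m := 0)
        (m' := ∑' k, ‖p k‖ ^ 2) ?_ ?_).summable
      · simp only [hv0]
        simp
      · simp only [hv1, hn]
        exact hKa.2.1.hasSum
    · have h1 := (hKa.2.2 (adjoint V₁ f)).mapL V₁
      have h2 : HasSum (fun n => ⟪v n, f⟫_ℂ • u n) (0 + V₁ (adjoint K (adjoint V₁ f))) := by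
        refine HasSum.even_add_odd ?_ ?_
        · simp only [hv0, inner_zero_left, zero_smul]
          exact hasSum_zero
        · simp only [hv1, hu1]
          convert! h1 using 1
          funext k
          rw [map_smul, ContinuousLinearMap.adjoint_inner_right]
      rw [zero_add] at h2
      exact h2
  refine ⟨S, mS, μ, sμ, fun s => conj (ψ s), adjoint (cj W N), V₁ ∘L adjoint K ∘L adjoint V₁, u, v,
    {n | n % 2 = 1}, V₁, Pool.Agent.Y77.NK.isMul_adj hMul, hrep, hiso, fun x => ?_,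
    fun i hi => ?_, fun i hi => ?_, fun i hi => ?_, fun i hi => ?_, fun y hy => ?_⟩
  · have hKadj : adjoint (V₁ ∘L adjoint K ∘L adjoint V₁) = V₁ ∘L K ∘L adjoint V₁ := by
      rw [ContinuousLinearMap.adjoint_comp, ContinuousLinearMap.adjoint_comp,
        ContinuousLinearMap.adjoint_adjoint, ContinuousLinearMap.adjoint_adjoint]
      rfl
    rw [ContinuousLinearMap.adjoint_adjoint, map_add, ContinuousLinearMap.adjoint_adjoint, hKadj]
    show V₁ ((A + K) x) = cj W N (V₁ x) + V₁ (K (adjoint V₁ (V₁ x)))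
    rw [hiso, Pool.Agent.Y283.NK.cj_apply, hV₁ x, LinearIsometryEquiv.apply_symm_apply, hNV,
      ← hV₁, ← map_add]
    rfl
  · have hi' : i % 2 = 1 := hi
    rw [hu, if_pos hi', hiso]
  · have hi' : i % 2 = 1 := hi
    rw [hv, if_pos hi', hiso]
  · have hi' : ¬ i % 2 = 1 := hi
    rw [hv, if_neg hi']
  · have hi' : ¬ i % 2 = 1 := hi
    rw [hu, if_neg hi', hgV]
  · have h1 : ∀ j, ⟪d j, y - V₁ (adjoint V₁ y)⟫_ℂ = 0 := by
      intro j
      have h2 := hy (2 * j) (by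
        show ¬ (2 * j) % 2 = 1
        omega)
      rw [hu0, hg, inner_smul_left, mul_eq_zero] at h2
      have h3 := h2.resolve_left (by
        rw [Complex.conj_ofReal]
        exact_mod_cast (ht0 j).ne')
      have h6 : ⟪d j, V₁ (adjoint V₁ y)⟫_ℂ = ⟪V₁ (adjoint V₁ (d j)), y⟫_ℂ := by
        rw [← ContinuousLinearMap.adjoint_inner_left V₁ (adjoint V₁ y) (d j),
          ContinuousLinearMap.adjoint_inner_right V₁ (adjoint V₁ (d j)) y]
      rw [inner_sub_left, sub_eq_zero] at h3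
      rw [inner_sub_right, h6, h3, sub_self]
    have h4 : y - V₁ (adjoint V₁ y) = 0 := by
      have h5 : ∀ w : Lp ℂ 2 μ, ⟪w, y - V₁ (adjoint V₁ y)⟫_ℂ = 0 := by
        intro w
        have hcl : IsClosed {w : Lp ℂ 2 μ | ⟪w, y - V₁ (adjoint V₁ y)⟫_ℂ = 0} :=
          isClosed_eq (by fun_prop) continuous_const
        have hsub : closure (range d) ⊆ {w : Lp ℂ 2 μ | ⟪w, y - V₁ (adjoint V₁ y)⟫_ℂ = 0} :=
          closure_minimal (by rintro _ ⟨j, rfl⟩; exact h1 j) hcl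
        exact hsub (hd w)
      exact inner_self_eq_zero.1 (h5 _)
    exact (sub_eq_zero.1 h4).symm

end Pool.Agent.H64.XS
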