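import Pool.Agent.H50.SM.All
import Pool.Agent.H64.XS.Ker
import Pool.Agent.H64.XS.Cha
import Pool.Agent.H64.XS.Mdl
import Pool.Agent.H50.XS.Mdx
import Pool.Agent.H50.XS.Thmj
import Pool.Agent.H31.XS.Algj
import Pool.Agent.H39.XS.Chb
import Pool.Agent.H41.XS.Evlj
import Pool.Agent.H41.XS.Wgtj
import Pool.Agent.H76.XS.Nrm
import Pool.Agent.H94.XS.Min
import Pool.Agent.H94.XS.Two
import Pool.Agent.H94.XS.Sepn
import Pool.Agent.H66.XS.RD1
import Pool.Agent.H22.XS.RD2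

/-!
# Project XS (helper64): the theorem from its parts
-/

set_option autoImplicit false

namespace Pool.Agent.H64.XS

open MeasureTheory Set
open scoped InnerProductSpace
open Pool.Agent.Q130.TR
open Pool.Agent.Q135.TR
open Pool.Agent.H50.SM

theorem tTHMJ : S_THMJ :=
  Pool.Agent.H50.XS.thmj rHSB (Pool.Agent.H31.XS.algj rL2B) (APX.apx rL2B rHSB)
    (LNK2.lnk2 Pool.Agent.Q130.TC.wML2 Pool.Agent.Q88.TC.ply)
    (Pool.Agent.H41.XS.wgtj (Pool.Agent.H41.XS.evlj rL2B rHSB) rL2B rHSB)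
    (HVY.hvy rL2B rHSB) EVI.evi

theorem tTWO : S_TWO :=
  Pool.Agent.H94.XS.two (cha rL2B rHSB (frd rL2B)) (Pool.Agent.H39.XS.chb rL2B rHSB (ker rL2B))
    ORT.ort

theorem tRD2 : S_RD2 :=
  Pool.Agent.H22.XS.rd2 (Pool.Agent.H66.XS.rd1 rL2B (frd rL2B)) rHSB

theorem tMDX : S_MDX :=
  Pool.Agent.H50.XS.mdx tTHMJ tTWO tRD2 (Pool.Agent.H76.XS.nrm Pool.Agent.H50.SM.main)

/-- **subnormal plus trace class: invariant subspaces** -/
theorem main : S_XSUB :=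
  Pool.Agent.H50.XS.xsub tMDX mdl Pool.Agent.H94.XS.sepn Pool.Agent.H94.XS.min ADJ.adj

end Pool.Agent.H64.XS
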